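import Pool.Agent.H41.Fdc6

set_option autoImplicit false
open Pool.Agent.H41.Fdc

namespace Pool.Agent.Results.MP_153b2f_an.No

/-- There is a (principal) etale groupoid of dynamic asymptotic dimension at most 12 that does not
have finite dynamical complexity. -/
theorem result : ∃ (G : Type) (_ : TopologicalSpace G) (_ : LocallyCompactSpace G)
    (_ : T2Space G) (E : EGroupoid G), E.Principal ∧ E.DadLe 12 ∧ ¬ E.FDC :=
  ⟨Gam × X7, inferInstance, inferInstance, inferInstance, GG, principal, dad, not_fdc⟩

end Pool.Agent.Results.MP_153b2f_an.No
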